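import Pool.Agent.W989.TN.Stm

set_option autoImplicit false

namespace Pool.Agent.W579.TN

open Matrix Finset Pool.Agent.W989.TN

theorem exists_factor {K : Type*} [Field K] {m n : Type*} [Fintype m] [Fintype n]
    (A : Matrix m n K) :
    ∃ (P : Matrix m (Fin A.rank) K) (Q : Matrix (Fin A.rank) n K), A = P * Q := by
  classical
  have h1 : Module.finrank K (Submodule.span K (Set.range A.col)) = A.rank :=
    (rank_eq_finrank_span_cols A).symm
  let b : Module.Basis (Fin A.rank) K (Submodule.span K (Set.range A.col)) :=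
    Module.finBasisOfFinrankEq K _ h1
  refine ⟨Matrix.of fun x i => (b i : m → K) x,
    Matrix.of fun i y => b.repr ⟨A.col y, Submodule.subset_span ⟨y, rfl⟩⟩ i, ?_⟩
  ext x y
  rw [Matrix.mul_apply]
  simp only [Matrix.of_apply]
  have h2 := b.sum_repr ⟨A.col y, Submodule.subset_span ⟨y, rfl⟩⟩
  have h3 := congrArg (fun w : Submodule.span K (Set.range A.col) => (w : m → K) x) h2
  simp only [Submodule.coe_sum, Submodule.coe_smul, Finset.sum_apply, Pi.smul_apply,
    smul_eq_mul] at h3
  rw [show A x y = A.col y x from rfl, ← h3]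
  exact Finset.sum_congr rfl fun i _ => mul_comm _ _

theorem rank_re_le {m : Type*} [Fintype m] (A : Matrix m m ℂ) :
    (Matrix.of fun x y => (A x y).re : Matrix m m ℝ).rank ≤ 2 * A.rank := by
  classical
  obtain ⟨P, Q, h⟩ := exists_factor A
  have h1 : (Matrix.of fun x y => (A x y).re : Matrix m m ℝ)
      = (Matrix.of fun x (i : Fin A.rank ⊕ Fin A.rank) =>
          Sum.elim (fun i => (P x i).re) (fun i => (P x i).im) i : Matrix m _ ℝ)
        * (Matrix.of fun (i : Fin A.rank ⊕ Fin A.rank) y =>
          Sum.elim (fun i => (Q i y).re) (fun i => -(Q i y).im) i : Matrix _ m ℝ) := by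
    ext x y
    have h2 : A x y = ∑ i, P x i * Q i y := by
      conv_lhs => rw [h]
      rw [Matrix.mul_apply]
    rw [Matrix.mul_apply, Fintype.sum_sum_type]
    simp only [Matrix.of_apply, Sum.elim_inl, Sum.elim_inr]
    rw [h2, Complex.re_sum, ← Finset.sum_add_distrib]
    refine Finset.sum_congr rfl fun i _ => ?_
    rw [Complex.mul_re]
    ring
  rw [h1]
  refine (Matrix.rank_mul_le_left _ _).trans ((Matrix.rank_le_card_width _).trans ?_)
  rw [Fintype.card_sum, Fintype.card_fin]
  omega

theorem t_REAL : REAL := by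
  intro m _ ρ r T hT
  obtain ⟨S, h1, h2, h3⟩ := hT
  refine ⟨Matrix.of fun x y => (S x y).re, ?_, ?_, ?_⟩
  · have h4 : T - (Matrix.of fun x y => (S x y).re)
        = Matrix.of fun x y => ((T.map (fun x : ℝ => (x : ℂ)) - S) x y).re := by
      ext x y
      simp
    rw [h4]
    have h5 := rank_re_le (T.map (fun x : ℝ => (x : ℂ)) - S)
    have h6 : ((Matrix.of fun x y => ((T.map (fun x : ℝ => (x : ℂ)) - S) x y).re
        : Matrix m m ℝ).rank : ℝ) ≤ 2 * ((T.map (fun x : ℝ => (x : ℂ)) - S).rank : ℝ) := by
      exact_mod_cast h5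
    linarith
  · intro x
    refine le_trans ?_ (h2 x)
    exact_mod_cast Set.ncard_le_ncard (fun y hy => by
      simp only [Set.mem_setOf_eq, Matrix.of_apply] at hy ⊢
      intro h
      rw [h] at hy
      exact hy Complex.zero_re) (Set.toFinite _)
  · intro y
    refine le_trans ?_ (h3 y)
    exact_mod_cast Set.ncard_le_ncard (fun x hx => by
      simp only [Set.mem_setOf_eq, Matrix.of_apply] at hx ⊢
      intro h
      rw [h] at hx
      exact hx Complex.zero_re) (Set.toFinite _)

end Pool.Agent.W579.TN
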